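import Pool.Agent.H741.EL.Stm
import Pool.Graph.R_seed8.Helper265.JcF
import Pool.Graph.R_seed8.W675.SqC

/-!
# Project EL, part JCT: the Jordan curve theorem in `E2`
-/

set_option autoImplicit false
open Metric Set Filter Topology

namespace Pool.Agent.H20.EL
open Pool.Agent.H741.EL Pool.Agent.Y508

/-- the periodic extension of a closed curve -/
theorem ext_facts {γ : ℝ → ℂ} (hc : ContinuousOn γ (Icc 0 1)) (h01 : γ 0 = γ 1)
    (hi : InjOn γ (Ico 0 1)) :
    Pool.Agent.H763R2.An.Loop (γ ∘ Int.fract) ∧ Pool.Agent.H763R2.An.Inj (γ ∘ Int.fract) ∧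
      range (γ ∘ Int.fract) = γ '' Icc 0 1 := by
  refine ⟨⟨hc.comp_fract'' h01, ?_⟩, ?_, ?_⟩
  · intro t
    simp only [Function.comp_apply, Int.fract_add_one]
  · intro x y hxy hyx h
    have hx : Int.fract x ∈ Ico (0 : ℝ) 1 := ⟨Int.fract_nonneg x, Int.fract_lt_one x⟩
    have hy : Int.fract y ∈ Ico (0 : ℝ) 1 := ⟨Int.fract_nonneg y, Int.fract_lt_one y⟩
    have he : Int.fract x = Int.fract y := hi hx hy h
    obtain ⟨z, hz⟩ := Int.fract_eq_fract.1 he
    have h1 : (z : ℝ) < 0 := by linarith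
    have h2 : (-1 : ℝ) < z := by linarith
    have h3 : z < 0 := by exact_mod_cast h1
    have h4 : -1 < z := by exact_mod_cast h2
    omega
  · apply Subset.antisymm
    · rintro _ ⟨t, rfl⟩
      exact ⟨Int.fract t, ⟨Int.fract_nonneg t, (Int.fract_lt_one t).le⟩, rfl⟩
    · rintro _ ⟨t, ⟨ht0, ht1⟩, rfl⟩
      rcases ht1.lt_or_eq with h | h
      · refine ⟨t, ?_⟩
        simp only [Function.comp_apply]
        rw [Int.fract_eq_self.2 ⟨ht0, h⟩]
      · refine ⟨0, ?_⟩
        simp only [Function.comp_apply, Int.fract_zero]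
        rw [h01, h]

/-- the parametrisation of a closed curve by the circle -/
theorem circ_facts {γ : ℝ → ℂ} (hc : ContinuousOn γ (Icc 0 1)) (h01 : γ 0 = γ 1)
    (hi : InjOn γ (Ico 0 1)) :
    ∃ σ : Circle → ℂ, Continuous σ ∧ Function.Injective σ ∧ range σ = γ '' Icc 0 1 := by
  have : Fact ((0 : ℝ) < 1) := ⟨one_pos⟩
  have hcl : Continuous (AddCircle.liftIco (1 : ℝ) 0 γ) :=
    AddCircle.liftIco_zero_continuous h01 hc
  have hcoe : ∀ t : ℝ, AddCircle.liftIco (1 : ℝ) 0 γ (t : AddCircle (1 : ℝ)) = γ (Int.fract t) := by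
    intro t
    have e : (t : AddCircle (1 : ℝ)) = ((Int.fract t : ℝ) : AddCircle (1 : ℝ)) := by
      rw [← sub_eq_zero, ← AddCircle.coe_sub, AddCircle.coe_eq_zero_iff]
      exact ⟨⌊t⌋, by rw [zsmul_eq_mul, mul_one, Int.self_sub_fract]⟩
    rw [e, AddCircle.liftIco_zero_coe_apply ⟨Int.fract_nonneg t, Int.fract_lt_one t⟩]
  have hinj : Function.Injective (AddCircle.liftIco (1 : ℝ) 0 γ) := by
    intro x y hxy
    obtain ⟨s, rfl⟩ := QuotientAddGroup.mk_surjective x
    obtain ⟨t, rfl⟩ := QuotientAddGroup.mk_surjective y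
    have h1 := hcoe s
    have h2 := hcoe t
    have h3 : γ (Int.fract s) = γ (Int.fract t) := by rw [← h1, ← h2]; exact hxy
    have h4 : Int.fract s = Int.fract t :=
      hi ⟨Int.fract_nonneg s, Int.fract_lt_one s⟩ ⟨Int.fract_nonneg t, Int.fract_lt_one t⟩ h3
    obtain ⟨z, hz⟩ := Int.fract_eq_fract.1 h4
    show (s : AddCircle (1 : ℝ)) = (t : AddCircle (1 : ℝ))
    rw [← sub_eq_zero, ← AddCircle.coe_sub, AddCircle.coe_eq_zero_iff]
    exact ⟨z, by simp [hz]⟩
  refine ⟨AddCircle.liftIco (1 : ℝ) 0 γ ∘ (AddCircle.homeomorphCircle (one_ne_zero)).symm,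
    hcl.comp (Homeomorph.continuous _), hinj.comp (Homeomorph.injective _), ?_⟩
  rw [(AddCircle.homeomorphCircle (one_ne_zero)).symm.surjective.range_comp]
  rw [← (ext_facts hc h01 hi).2.2]
  apply Subset.antisymm
  · rintro _ ⟨x, rfl⟩
    obtain ⟨s, rfl⟩ := QuotientAddGroup.mk_surjective x
    exact ⟨s, (hcoe s).symm⟩
  · rintro _ ⟨s, rfl⟩
    exact ⟨(s : AddCircle (1 : ℝ)), hcoe s⟩

/-- The Jordan curve theorem in `ℂ` -/
theorem jct_complex (h1 : S_SEP) {γ : ℝ → ℂ} (hc : ContinuousOn γ (Icc 0 1)) (h01 : γ 0 = γ 1)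
    (hi : InjOn γ (Ico 0 1)) :
    ∃ Ω X : Set ℂ, IsOpen Ω ∧ IsOpen X ∧
      IsConnected Ω ∧ IsConnected X ∧ Disjoint Ω X ∧ Ω ∪ X = (γ '' Icc 0 1)ᶜ ∧
      Bornology.IsBounded Ω ∧ ¬ Bornology.IsBounded X ∧ frontier Ω = γ '' Icc 0 1 ∧
      frontier X = γ '' Icc 0 1 := by
  obtain ⟨z0, hz0, hzb⟩ := h1 γ hc h01 hi
  obtain ⟨L, J, hr⟩ := ext_facts hc h01 hi
  obtain ⟨σ, hσ, hσi, hσr⟩ := circ_facts hc h01 hi
  have hK : IsCompact (γ '' Icc 0 1) := isCompact_Icc.image_of_continuousOn hc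
  obtain ⟨a, ha, hau⟩ := Pool.Agent.Helper265.Br.unb_ex hK
  set Γ : Set ℂ := γ '' Icc 0 1 with hΓ
  have hop : ∀ w, IsOpen (connectedComponentIn Γᶜ w) := fun w =>
    hK.isClosed.isOpen_compl.connectedComponentIn
  have hsub : ∀ w, connectedComponentIn Γᶜ w ⊆ Γᶜ := fun w => connectedComponentIn_subset _ _
  have hz0m : z0 ∈ connectedComponentIn Γᶜ z0 := mem_connectedComponentIn hz0
  have ham : a ∈ connectedComponentIn Γᶜ a := mem_connectedComponentIn ha
  have hdisj : Disjoint (connectedComponentIn Γᶜ z0) (connectedComponentIn Γᶜ a) := by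
    rw [Set.disjoint_left]
    intro w hw1 hw2
    have e1 := connectedComponentIn_eq hw1
    have e2 := connectedComponentIn_eq hw2
    rw [e2, ← e1] at hau
    exact hau hzb
  have hun : connectedComponentIn Γᶜ z0 ∪ connectedComponentIn Γᶜ a = Γᶜ := by
    apply Subset.antisymm (union_subset (hsub _) (hsub _))
    intro w hw
    by_cases hwb : Bornology.IsBounded (connectedComponentIn Γᶜ w)
    · left
      have := Pool.Agent.Helper265.Br.jordan_one hσ hσi (a := z0) (b := w)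
        (by rw [hσr]; exact hz0) (by rw [hσr]; exact hw) (by rw [hσr]; exact hzb)
        (by rw [hσr]; exact hwb)
      rw [hσr] at this
      exact this
    · right
      rw [Pool.Agent.Helper265.Br.unb_eq hK ha hw hau hwb]
      exact mem_connectedComponentIn hw
  have hfr1 : frontier (connectedComponentIn Γᶜ z0) = Γ := by
    have := Pool.Agent.W675.SqG.frontier_all L J (hop z0) ⟨z0, hz0m⟩ hzb
      (by
        rw [hr, Set.disjoint_left]
        intro w hw
        exact hsub z0 hw)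
      (by
        rw [hr]
        exact Pool.Agent.Helper265.Br.aux_frontier hK.isClosed z0)
    rw [hr] at this
    exact this
  have hcon : IsConnected (connectedComponentIn Γᶜ z0) :=
    ⟨⟨z0, hz0m⟩, isPreconnected_connectedComponentIn⟩
  have hcona : IsConnected (connectedComponentIn Γᶜ a) :=
    ⟨⟨a, ham⟩, isPreconnected_connectedComponentIn⟩
  refine ⟨connectedComponentIn Γᶜ z0, connectedComponentIn Γᶜ a, hop z0, hop a, hcon, hcona,
    hdisj, hun, hzb, hau, hfr1, ?_⟩
  apply Subset.antisymm (Pool.Agent.Helper265.Br.aux_frontier hK.isClosed a)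
  have hfacts := (Pool.Agent.Helper265.Br.jordan_facts hσ hσi (hop z0) hcon hzb
    (by rw [hσr]; exact hfr1)).2.2
  have hcl : (closure (connectedComponentIn Γᶜ z0))ᶜ ⊆ connectedComponentIn Γᶜ a := by
    intro w hw
    have hw1 : w ∉ Γ := by
      intro h
      rw [← hfr1] at h
      exact hw (frontier_subset_closure h)
    have hw2 : w ∈ connectedComponentIn Γᶜ z0 ∪ connectedComponentIn Γᶜ a := by
      rw [hun]; exact hw1
    rcases hw2 with h | h
    · exact absurd (subset_closure h) hw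
    · exact h
  intro w hw
  have hwz : w ∈ (connectedComponentIn Γᶜ z0)ᶜ := fun h => hsub z0 h hw
  rw [(hop a).frontier_eq]
  refine ⟨closure_mono hcl (hfacts hwz), fun h => hsub a h hw⟩

theorem t_JCT (h1 : S_SEP) : S_JCT := by
  intro γ hγ
  set e : ℂ ≃ₗᵢ[ℝ] E2 := Complex.orthonormalBasisOneI.repr with he
  obtain ⟨Ω, X, hΩo, hXo, hΩc, hXc, hd, hu, hΩb, hXb, hf1, hf2⟩ :=
    jct_complex h1 (γ := e.symm ∘ γ) (e.symm.continuous.comp_continuousOn hγ.cont)
      (by simp only [Function.comp_apply, hγ.closed])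
      (e.symm.injective.comp_injOn hγ.inj)
  have him : e '' ((e.symm ∘ γ) '' Icc 0 1) = γ '' Icc 0 1 := by
    rw [← image_comp]
    apply image_congr
    intro t _
    simp
  have hH : ∀ s : Set ℂ, e '' s = e.toHomeomorph '' s := fun s => rfl
  refine ⟨e '' Ω, e '' X, ?_, ?_, ?_, ?_, ?_, ?_, ?_, ?_, ?_, ?_⟩
  · rw [hH]; exact e.toHomeomorph.isOpen_image.2 hΩo
  · rw [hH]; exact e.toHomeomorph.isOpen_image.2 hXo
  · exact hΩc.image _ e.continuous.continuousOn
  · exact hXc.image _ e.continuous.continuousOn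
  · exact (disjoint_image_iff e.injective).2 hd
  · rw [← image_union, hu, image_compl_eq e.bijective, him]
  · exact e.lipschitz.isBounded_image hΩb
  · intro h
    apply hXb
    have := e.symm.lipschitz.isBounded_image h
    rwa [← image_comp, show (e.symm ∘ e : ℂ → ℂ) = id by ext x; simp, image_id] at this
  · rw [hH, ← e.toHomeomorph.image_frontier, hf1, ← hH, him]
  · rw [hH, ← e.toHomeomorph.image_frontier, hf2, ← hH, him]

end Pool.Agent.H20.EL
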